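import Pool.Agent.H73.CBD.Stmts

/-! Board cbd, row LPL (MP_e1af46). -/

set_option autoImplicit false

namespace Pool.CBD

theorem lpl_core (E : Type) [NormedAddCommGroup E] [NormedSpace ℝ E] (φ : V → E)
    (hd : ∀ z, z ≠ 0 → ContDiffAt ℝ 1 φ z) :
    ∃ L : ℝ, 0 < L ∧ ∀ a b : V, ‖a‖ = 1 → ‖b‖ = 1 → ‖φ a - φ b‖ ≤ L * ‖a - b‖ := by
  set K : Set V := {z | 1 / 2 ≤ ‖z‖ ∧ ‖z‖ ≤ 1} with hK
  have hKc : IsCompact K := by
    have h1 : K = Metric.closedBall (0 : V) 1 ∩ {z | 1 / 2 ≤ ‖z‖} := by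
      ext z
      simp only [hK, Set.mem_setOf_eq, Set.mem_inter_iff, mem_closedBall_zero_iff]
      exact and_comm
    rw [h1]
    exact (isCompact_closedBall (0 : V) 1).inter_right (isClosed_le continuous_const continuous_norm)
  have hK0 : ∀ z ∈ K, z ≠ 0 := by
    intro z hz h
    have h2 := hz.1
    rw [h, norm_zero] at h2
    norm_num at h2
  have hc0 : ContinuousOn φ K := fun z hz => (hd z (hK0 z hz)).continuousAt.continuousWithinAt
  have hc1 : ContinuousOn (fderiv ℝ φ) K := fun z hz =>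
    ((hd z (hK0 z hz)).fderiv_right (m := 0) (by norm_num)).continuousAt.continuousWithinAt
  obtain ⟨C0, hC0⟩ := hKc.exists_bound_of_continuousOn hc0
  obtain ⟨C1, hC1⟩ := hKc.exists_bound_of_continuousOn hc1
  refine ⟨|C1| + 4 * |C0| + 1, by positivity, ?_⟩
  intro a b ha hb
  have haK : a ∈ K := ⟨by rw [ha]; norm_num, by rw [ha]⟩
  have hbK : b ∈ K := ⟨by rw [hb]; norm_num, by rw [hb]⟩
  have hn : 0 ≤ ‖a - b‖ := norm_nonneg _
  by_cases hab : ‖a - b‖ ≤ 1 / 2
  · have hseg : ∀ x ∈ segment ℝ b a, x ∈ K := by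
      intro x hx
      obtain ⟨s, t, hs, ht, hst, rfl⟩ := hx
      constructor
      · have e : s • b + t • a = a - s • (a - b) := by
          have : t = 1 - s := by linarith
          rw [this, smul_sub, sub_smul, one_smul]; abel
        rw [e]
        have h3 : ‖a‖ - ‖s • (a - b)‖ ≤ ‖a - s • (a - b)‖ := norm_sub_norm_le _ _
        rw [norm_smul, Real.norm_eq_abs, abs_of_nonneg hs, ha] at h3
        have h4 : s * ‖a - b‖ ≤ 1 * (1 / 2) := by
          apply mul_le_mul (by linarith) hab hn (by norm_num)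
        linarith
      · calc ‖s • b + t • a‖ ≤ ‖s • b‖ + ‖t • a‖ := norm_add_le _ _
          _ = s + t := by
            rw [norm_smul, norm_smul, Real.norm_eq_abs, Real.norm_eq_abs, abs_of_nonneg hs,
              abs_of_nonneg ht, ha, hb, mul_one, mul_one]
          _ = 1 := hst
    have h5 := Convex.norm_image_sub_le_of_norm_fderiv_le (𝕜 := ℝ) (f := φ) (C := C1)
      (s := segment ℝ b a) (x := b) (y := a)
      (fun x hx => (hd x (hK0 x (hseg x hx))).differentiableAt (by norm_num))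
      (fun x hx => hC1 x (hseg x hx)) (convex_segment b a) (left_mem_segment ℝ b a)
      (right_mem_segment ℝ b a)
    refine h5.trans ?_
    apply mul_le_mul_of_nonneg_right _ hn
    have := le_abs_self C1
    have := abs_nonneg C0
    linarith
  · have hab' : 1 / 2 < ‖a - b‖ := not_le.mp hab
    have h6 : ‖φ a - φ b‖ ≤ 2 * |C0| := by
      have h7 := norm_sub_le (φ a) (φ b)
      have h8 := hC0 a haK
      have h9 := hC0 b hbK
      have := le_abs_self C0
      linarith
    have h10 := abs_nonneg C0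
    have h11 := abs_nonneg C1
    nlinarith [mul_nonneg h11 hn, mul_nonneg h10 (sub_nonneg.mpr hab'.le)]

theorem LPL_thm (h1 : NRMStmt) : LPLStmt := by
  intro E _ _ φ hd hs
  obtain ⟨L, hL, h⟩ := lpl_core E φ hd
  refine ⟨L, hL, ?_⟩
  intro z w hz hw
  have e : ∀ y : V, y ≠ 0 → φ (nrm y) = φ y := by
    intro y hy
    unfold nrm
    exact hs _ y (inv_pos.mpr (norm_pos_iff.mpr hy))
  rw [← e z hz, ← e w hw]
  exact h _ _ (h1.2 z hz).1 (h1.2 w hw).1

end Pool.CBD
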